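import Mathlib

set_option autoImplicit false

namespace Pool.Agent.W688.HS

theorem hs_m (B m : ℕ) (b : ℕ) (hm : 1 ≤ m) (hb : 32*B + 64 ≤ b)
    (h : ∀ p : ℕ, p.Prime → B ≤ p → b < 16*p → p ≤ b → p ∣ m) : b^4 ≤ 1024*m := by
  obtain ⟨p1, hp1, h1a, h1b⟩ := Nat.exists_prime_lt_and_le_two_mul (b / 2) (by omega)
  obtain ⟨p2, hp2, h2a, h2b⟩ := Nat.exists_prime_lt_and_le_two_mul (b / 4) (by omega)
  obtain ⟨p3, hp3, h3a, h3b⟩ := Nat.exists_prime_lt_and_le_two_mul (b / 8) (by omega)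
  obtain ⟨p4, hp4, h4a, h4b⟩ := Nat.exists_prime_lt_and_le_two_mul (b / 16) (by omega)
  have d1 : p1 ∣ m := h p1 hp1 (by omega) (by omega) (by omega)
  have d2 : p2 ∣ m := h p2 hp2 (by omega) (by omega) (by omega)
  have d3 : p3 ∣ m := h p3 hp3 (by omega) (by omega) (by omega)
  have d4 : p4 ∣ m := h p4 hp4 (by omega) (by omega) (by omega)
  have c12 : Nat.Coprime p1 p2 := (Nat.coprime_primes hp1 hp2).2 (by omega)
  have c13 : Nat.Coprime p1 p3 := (Nat.coprime_primes hp1 hp3).2 (by omega)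
  have c14 : Nat.Coprime p1 p4 := (Nat.coprime_primes hp1 hp4).2 (by omega)
  have c23 : Nat.Coprime p2 p3 := (Nat.coprime_primes hp2 hp3).2 (by omega)
  have c24 : Nat.Coprime p2 p4 := (Nat.coprime_primes hp2 hp4).2 (by omega)
  have c34 : Nat.Coprime p3 p4 := (Nat.coprime_primes hp3 hp4).2 (by omega)
  have e12 : p1 * p2 ∣ m := c12.mul_dvd_of_dvd_of_dvd d1 d2
  have e123 : p1 * p2 * p3 ∣ m :=
    (Nat.Coprime.mul_left c13 c23).mul_dvd_of_dvd_of_dvd e12 d3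
  have e1234 : p1 * p2 * p3 * p4 ∣ m :=
    (Nat.Coprime.mul_left (Nat.Coprime.mul_left c14 c24) c34).mul_dvd_of_dvd_of_dvd e123 d4
  have hle : p1 * p2 * p3 * p4 ≤ m := Nat.le_of_dvd hm e1234
  have f1 : b ≤ 2 * p1 := by omega
  have f2 : b ≤ 4 * p2 := by omega
  have f3 : b ≤ 8 * p3 := by omega
  have f4 : b ≤ 16 * p4 := by omega
  calc b ^ 4 = b * b * b * b := by ring
    _ ≤ (2 * p1) * (4 * p2) * (8 * p3) * (16 * p4) :=
        Nat.mul_le_mul (Nat.mul_le_mul (Nat.mul_le_mul f1 f2) f3) f4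
    _ = 1024 * (p1 * p2 * p3 * p4) := by ring
    _ ≤ 1024 * m := Nat.mul_le_mul_left _ hle

end Pool.Agent.W688.HS
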