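import Mathlib

set_option autoImplicit false

namespace Pool.Agent.W688.HS

theorem tel_core (t : ℝ) (ht0 : 0 < t) (ht1 : t ≤ 1 / 2) :
    |Real.log ((1 + t) / (1 - t)) - 2 * t - 2 / 3 * (t ^ 3 / (1 - t ^ 2) ^ 2)| ≤
      4 / 3 * (t ^ 5 * (1 + t ^ 2) / (1 - t ^ 2) ^ 4) := by
  have h1 := Real.sum_range_le_log_div ht0.le (by linarith : t < 1) 2
  have h2 := Real.log_div_le_sum_range_add ht0.le (by linarith : t < 1) 2
  simp only [Finset.sum_range_succ, Finset.sum_range_zero] at h1 h2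
  norm_num at h1 h2
  have hs0 : 0 < t ^ 2 := by positivity
  have hs1 : t ^ 2 ≤ 1 / 4 := by nlinarith
  have hw : 0 < 1 - t ^ 2 := by linarith
  have hw1 : (1 - t ^ 2) ^ 2 ≤ 1 := by nlinarith
  have hw2 : 0 ≤ (1 - t ^ 2) ^ 2 := sq_nonneg _
  have u1 : 4 / 3 * (t ^ 5 * (1 + t ^ 2) / (1 - t ^ 2) ^ 4) -
      (2 / 3 * t ^ 3 + 2 * (t ^ 5 / (1 - t ^ 2)) - 2 / 3 * (t ^ 3 / (1 - t ^ 2) ^ 2)) =
      2 / 3 * t ^ 3 * (t ^ 2 * (2 * (1 + t ^ 2) - (1 - t ^ 2) ^ 2 * (1 - 2 * t ^ 2))) /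
        (1 - t ^ 2) ^ 4 := by
    field_simp
    ring
  have u2 : 2 / 3 * t ^ 3 - 2 / 3 * (t ^ 3 / (1 - t ^ 2) ^ 2) +
      4 / 3 * (t ^ 5 * (1 + t ^ 2) / (1 - t ^ 2) ^ 4) =
      2 / 3 * t ^ 3 * (t ^ 2 * (2 * (1 + t ^ 2) - (1 - t ^ 2) ^ 2 * (2 - t ^ 2))) /
        (1 - t ^ 2) ^ 4 := by
    field_simp
    ring
  have v1 : 0 ≤ 2 * (1 + t ^ 2) - (1 - t ^ 2) ^ 2 * (1 - 2 * t ^ 2) := by nlinarith
  have v2 : 0 ≤ 2 * (1 + t ^ 2) - (1 - t ^ 2) ^ 2 * (2 - t ^ 2) := by nlinarith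
  have w1 : 0 ≤ 2 / 3 * t ^ 3 * (t ^ 2 * (2 * (1 + t ^ 2) - (1 - t ^ 2) ^ 2 * (1 - 2 * t ^ 2))) /
        (1 - t ^ 2) ^ 4 := by positivity
  have w2 : 0 ≤ 2 / 3 * t ^ 3 * (t ^ 2 * (2 * (1 + t ^ 2) - (1 - t ^ 2) ^ 2 * (2 - t ^ 2))) /
        (1 - t ^ 2) ^ 4 := by positivity
  rw [← u1] at w1
  rw [← u2] at w2
  rw [abs_le]
  constructor
  · linarith
  · linarith

theorem tel_step (n : ℝ) (hn : 1 ≤ n) :
    |Real.log (2 * n + 1) - Real.log (2 * n - 1) - 1 / n -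
      (1 / 6) * (1 / (2 * n - 1) ^ 2 - 1 / (2 * n + 1) ^ 2)| ≤
      (1 / 6) * (1 / (2 * n - 1) ^ 4 - 1 / (2 * n + 1) ^ 4) := by
  have hn0 : 0 < n := by linarith
  obtain ⟨t, ht⟩ : ∃ t : ℝ, t = 1 / (2 * n) := ⟨_, rfl⟩
  have ht0 : 0 < t := by rw [ht]; positivity
  have ht1 : t ≤ 1 / 2 := by
    rw [ht]
    exact one_div_le_one_div_of_le (by norm_num) (by linarith)
  have hn' : n = 1 / (2 * t) := by
    rw [ht]
    field_simp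
  have hlt : 0 < 1 - t := by linarith
  have ha : 2 * n - 1 = (1 - t) / t := by
    rw [hn']
    field_simp
  have hb : 2 * n + 1 = (1 + t) / t := by
    rw [hn']
    field_simp
  have hc : 1 / n = 2 * t := by
    rw [hn']
    field_simp
  have hlog : Real.log (2 * n + 1) - Real.log (2 * n - 1) = Real.log ((1 + t) / (1 - t)) := by
    rw [← Real.log_div (by linarith) (by linarith), ha, hb]
    congr 1
    field_simp
  have h1t : (1 - t ^ 2) = (1 - t) * (1 + t) := by ring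
  have e2 : (1 / 6 : ℝ) * (1 / (2 * n - 1) ^ 2 - 1 / (2 * n + 1) ^ 2) =
      2 / 3 * (t ^ 3 / (1 - t ^ 2) ^ 2) := by
    rw [ha, hb, h1t]
    field_simp
    ring
  have e4 : (1 / 6 : ℝ) * (1 / (2 * n - 1) ^ 4 - 1 / (2 * n + 1) ^ 4) =
      4 / 3 * (t ^ 5 * (1 + t ^ 2) / (1 - t ^ 2) ^ 4) := by
    rw [ha, hb, h1t]
    field_simp
    ring
  rw [hlog, hc, e2, e4]
  exact tel_core t ht0 ht1

theorem hs_tel (a b : ℕ) (ha : 1 ≤ a) (hab : a ≤ b) :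
    |Real.log (2*(b:ℝ)+1) - Real.log (2*(a:ℝ)-1) - ∑ n ∈ Finset.Icc a b, (1/(n:ℝ)) -
      (1/6)*(1/(2*(a:ℝ)-1)^2 - 1/(2*(b:ℝ)+1)^2)| ≤
      (1/6)*(1/(2*(a:ℝ)-1)^4 - 1/(2*(b:ℝ)+1)^4) := by
  induction b, hab using Nat.le_induction with
  | base =>
    rw [Finset.Icc_self, Finset.sum_singleton]
    exact tel_step a (by exact_mod_cast ha)
  | succ b hab ih =>
    rw [Finset.sum_Icc_succ_top (by omega)]
    have hs := tel_step ((b + 1 : ℕ) : ℝ) (by exact_mod_cast Nat.succ_le_succ (Nat.zero_le b))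
    have e : 2 * ((b + 1 : ℕ) : ℝ) - 1 = 2 * (b : ℝ) + 1 := by push_cast; ring
    rw [e] at hs
    rw [abs_le] at ih hs ⊢
    constructor
    · linarith [ih.1, hs.1]
    · linarith [ih.2, hs.2]

end Pool.Agent.W688.HS
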